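import Mathlib

set_option autoImplicit false

/-!
Forward differences of powers.
-/

namespace Pool.Agent.H88.War

open Finset

/-- all iterated forward differences are nonnegative -/
def AM (f : ℕ → ℤ) : Prop := ∀ m n, 0 ≤ (fwdDiff 1)^[m] f n

lemma AM.shift {f : ℕ → ℤ} (h : AM f) (r : ℕ) : AM (fun n => f (n + r)) := by
  intro m n
  rw [fwdDiff_iter_comp_add]
  exact h m (n + r)

lemma AM.diff {f : ℕ → ℤ} (h : AM f) : AM (fwdDiff 1 f) := by
  intro m n
  rw [← Function.iterate_succ_apply]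
  exact h (m + 1) n

lemma mul_aux : ∀ (m : ℕ) (f g : ℕ → ℤ), AM f → AM g → ∀ n, 0 ≤ (fwdDiff 1)^[m] (f * g) n := by
  intro m
  induction m with
  | zero =>
    intro f g hf hg n
    exact mul_nonneg (hf 0 n) (hg 0 n)
  | succ m ih =>
    intro f g hf hg n
    rw [Function.iterate_succ_apply]
    have h1 : fwdDiff 1 (f * g) = (fun n => f (n + 1)) * fwdDiff 1 g + fwdDiff 1 f * g := by
      funext n
      simp only [fwdDiff, Pi.mul_apply, Pi.add_apply]
      ring
    rw [h1, fwdDiff_iter_add]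
    exact add_nonneg (ih _ _ (hf.shift 1) hg.diff n) (ih _ _ hf.diff hg n)

lemma AM.mul {f g : ℕ → ℤ} (hf : AM f) (hg : AM g) : AM (f * g) := fun m n => mul_aux m f g hf hg n

lemma AM_zero : AM (fun _ => 0) := by
  intro m n
  have h1 : ∀ m : ℕ, (fwdDiff 1)^[m] (fun _ : ℕ => (0 : ℤ)) = fun _ => 0 := by
    intro m
    induction m with
    | zero => rfl
    | succ m ih => rw [Function.iterate_succ_apply, fwdDiff_const, ih]
  rw [h1]

lemma AM_of {f : ℕ → ℤ} (h0 : ∀ n, 0 ≤ f n) (h1 : AM (fwdDiff 1 f)) : AM f := by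
  intro m n
  cases m with
  | zero => exact h0 n
  | succ m =>
    rw [Function.iterate_succ_apply]
    exact h1 m n

lemma AM_one : AM (fun _ => 1) := by
  apply AM_of (fun _ => by norm_num)
  rw [fwdDiff_const]
  exact AM_zero

lemma AM_id : AM (fun n => (n : ℤ)) := by
  apply AM_of (fun n => Int.natCast_nonneg n)
  have : fwdDiff 1 (fun n : ℕ => (n : ℤ)) = fun _ => 1 := by
    funext n
    simp [fwdDiff]
  rw [this]
  exact AM_one

lemma AM_pow (d : ℕ) : AM (fun n => (n : ℤ) ^ d) := by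
  induction d with
  | zero => simpa using AM_one
  | succ d ih =>
    have h := ih.mul AM_id
    have e : (fun n : ℕ => (n : ℤ) ^ (d + 1)) = (fun n : ℕ => (n : ℤ) ^ d) * (fun n : ℕ => (n : ℤ)) := by
      funext n
      simp only [Pi.mul_apply]
      ring
    rw [e]; exact h

/-- the `m`-th forward difference of `n ^ d` -/
def P (d m n : ℕ) : ℤ := (fwdDiff 1)^[m] (fun n : ℕ => (n : ℤ) ^ d) n

lemma P_nonneg (d m n : ℕ) : 0 ≤ P d m n := AM_pow d m n

lemma P_succ (d m n : ℕ) : P d (m + 1) n = P d m (n + 1) - P d m n := by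
  unfold P
  rw [Function.iterate_succ_apply']
  rfl

lemma P_mono (d m n h : ℕ) : P d m n ≤ P d m (n + h) := by
  induction h with
  | zero => exact le_refl _
  | succ h ih =>
    have h1 := P_succ d m (n + h)
    have h2 := P_nonneg d (m + 1) (n + h)
    rw [show n + (h + 1) = n + h + 1 by ring]
    linarith

lemma P_lower (d m n h : ℕ) : (h : ℤ) * P d (m + 1) n ≤ P d m (n + h) - P d m n := by
  induction h with
  | zero => simp
  | succ h ih =>
    have h1 := P_succ d m (n + h)
    have h2 := P_mono d (m + 1) n h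
    rw [show n + (h + 1) = n + h + 1 by ring]
    push_cast
    linarith

lemma P_upper (d m n h : ℕ) : P d m (n + h) - P d m n ≤ (h : ℤ) * P d (m + 1) (n + h) := by
  induction h with
  | zero => simp
  | succ h ih =>
    have h1 := P_succ d m (n + h)
    have h2 := P_mono d (m + 1) (n + h) 1
    have h3 : (h : ℤ) * P d (m + 1) (n + h) ≤ (h : ℤ) * P d (m + 1) (n + h + 1) :=
      mul_le_mul_of_nonneg_left h2 (Int.natCast_nonneg h)
    rw [show n + (h + 1) = n + h + 1 by ring]
    push_cast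
    linarith

lemma P_eq (d m n : ℕ) : P d m n =
    ∑ i ∈ range (m + 1), ((-1 : ℤ) ^ (m - i) * (m.choose i : ℤ)) * ((n + i : ℕ) : ℤ) ^ d := by
  unfold P
  rw [fwdDiff_iter_eq_sum_shift]
  apply Finset.sum_congr rfl
  intro i _
  rw [smul_eq_mul]
  simp

lemma P_top (d n : ℕ) : P d d n = (d.factorial : ℤ) := by
  have h1 := congrFun (fwdDiff_iter_eq_factorial (R := ℤ) (n := d)) (n : ℤ)
  rw [fwdDiff_iter_eq_sum_shift] at h1
  rw [P_eq]
  refine Eq.trans ?_ (h1.trans ?_)
  · apply Finset.sum_congr rfl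
    intro i _
    simp [smul_eq_mul]
  · simp

/-- the size of the differences -/
lemma P_bounds (d : ℕ) : ∀ e, e ≤ d → ∃ C : ℕ, 0 < C ∧ ∀ n : ℕ, 2 ^ e ≤ n →
    (n : ℤ) ^ e ≤ C * P d (d - e) n ∧ P d (d - e) n ≤ C * (n : ℤ) ^ e := by
  intro e
  induction e with
  | zero =>
    intro _
    refine ⟨d.factorial, Nat.factorial_pos d, fun n _ => ?_⟩
    rw [Nat.sub_zero, P_top, pow_zero]
    have : (1 : ℤ) ≤ d.factorial := by exact_mod_cast Nat.factorial_pos d
    constructor <;> nlinarith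
  | succ e ih =>
    intro he
    obtain ⟨C, hC, h⟩ := ih (by omega)
    have hde : d - e = (d - (e + 1)) + 1 := by omega
    rw [hde] at h
    set m := d - (e + 1) with hm
    obtain ⟨C0, hC0⟩ : ∃ C0 : ℕ, P d m 0 ≤ C0 := ⟨(P d m 0).toNat, Int.self_le_toNat _⟩
    refine ⟨3 ^ (e + 1) * C + C0 + C, by positivity, fun n hn => ?_⟩
    have hn1 : 2 ≤ n := by
      calc 2 = 2 ^ 1 := rfl
        _ ≤ 2 ^ (e + 1) := Nat.pow_le_pow_right (by norm_num) (by omega)
        _ ≤ n := hn
    have hn0 : (1 : ℤ) ≤ n := by exact_mod_cast (by omega : 1 ≤ n)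
    have hpos : 0 ≤ P d m n := P_nonneg _ _ _
    constructor
    · -- lower bound
      set k := n / 2 with hk
      have hk1 : 2 ^ e ≤ k := by
        rw [hk, Nat.le_div_iff_mul_le (by norm_num)]
        calc 2 ^ e * 2 = 2 ^ (e + 1) := by ring
          _ ≤ n := hn
      have hk2 : n ≤ 3 * k := by omega
      have hk3 : 2 * k ≤ n := by omega
      obtain ⟨r, hr⟩ : ∃ r, n = k + k + r := ⟨n - 2 * k, by omega⟩
      have h1 := P_lower d m k k
      have h2 := P_mono d m (k + k) r
      have h3 := P_nonneg d m k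
      have h4 := (h k hk1).1
      rw [← hr] at h2
      have h5 : (k : ℤ) * P d (m + 1) k ≤ P d m n := by linarith
      have h6 : (k : ℤ) ^ (e + 1) ≤ C * P d m n := by
        calc (k : ℤ) ^ (e + 1) = k * (k : ℤ) ^ e := by ring
          _ ≤ k * (C * P d (m + 1) k) := mul_le_mul_of_nonneg_left h4 (by positivity)
          _ = C * (k * P d (m + 1) k) := by ring
          _ ≤ C * P d m n := mul_le_mul_of_nonneg_left h5 (by positivity)
      have h7 : (n : ℤ) ^ (e + 1) ≤ (3 * k : ℤ) ^ (e + 1) :=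
        pow_le_pow_left₀ (by positivity) (by exact_mod_cast hk2) _
      rw [mul_pow] at h7
      calc (n : ℤ) ^ (e + 1) ≤ 3 ^ (e + 1) * (k : ℤ) ^ (e + 1) := h7
        _ ≤ 3 ^ (e + 1) * (C * P d m n) := mul_le_mul_of_nonneg_left h6 (by positivity)
        _ = (3 ^ (e + 1) * C : ℕ) * P d m n := by push_cast; ring
        _ ≤ (3 ^ (e + 1) * C + C0 + C : ℕ) * P d m n := by
            apply mul_le_mul_of_nonneg_right _ hpos
            push_cast
            linarith [Int.natCast_nonneg C0, Int.natCast_nonneg C]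
    · -- upper bound
      have h1 := P_upper d m 0 n
      rw [zero_add] at h1
      have h2 := (h n (le_trans (Nat.pow_le_pow_right (by norm_num) (by omega)) hn)).2
      have h3 : (n : ℤ) * P d (m + 1) n ≤ n * (C * (n : ℤ) ^ e) :=
        mul_le_mul_of_nonneg_left h2 (by positivity)
      have h4 : (1 : ℤ) ≤ (n : ℤ) ^ (e + 1) := one_le_pow₀ hn0
      have h5 : (C0 : ℤ) ≤ C0 * (n : ℤ) ^ (e + 1) := by
        nlinarith [Int.natCast_nonneg C0]
      have h6 : (0 : ℤ) ≤ 3 ^ (e + 1) * C * (n : ℤ) ^ (e + 1) := by positivity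
      push_cast
      calc P d m n ≤ C0 + n * P d (m + 1) n := by linarith
        _ ≤ C0 * (n : ℤ) ^ (e + 1) + n * (C * (n : ℤ) ^ e) := by linarith
        _ = (C0 + C) * (n : ℤ) ^ (e + 1) := by ring
        _ ≤ (3 ^ (e + 1) * C + C0 + C) * (n : ℤ) ^ (e + 1) := by nlinarith

end Pool.Agent.H88.War
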