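import Pool.Agent.H88.War.Size

set_option autoImplicit false

/-!
Sums of products of almost equal factors.
-/

namespace Pool.Agent.H88.War

open Finset

lemma exists_step (f : ℕ → ℕ) (hf : ∀ a, a ≤ f a) (A n : ℕ) (h : f A ≤ n) :
    ∃ a, A ≤ a ∧ f a ≤ n ∧ n < f (a + 1) := by
  classical
  have hex : ∃ j, n < f (A + j + 1) := ⟨n, by have := hf (A + n + 1); omega⟩
  refine ⟨A + Nat.find hex, by omega, ?_, Nat.find_spec hex⟩
  rcases Nat.eq_zero_or_pos (Nat.find hex) with h1 | h1
  · rw [h1]; exact h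
  · have h2 := Nat.find_min hex (m := Nat.find hex - 1) (by omega)
    have h3 : A + (Nat.find hex - 1) + 1 = A + Nat.find hex := by omega
    rw [h3] at h2
    omega

lemma pow_step (b D : ℕ) : ∀ k : ℕ, (b + D) ^ (k + 1) ≤ b ^ (k + 1) + (k + 1) * D * (b + D) ^ k := by
  intro k
  induction k with
  | zero => simp
  | succ k ih =>
    have h1 : b * (b + D) ^ k ≤ (b + D) ^ (k + 1) := by
      rw [pow_succ, mul_comm]
      exact Nat.mul_le_mul_left _ (by omega)
    calc (b + D) ^ (k + 1 + 1) = b * (b + D) ^ (k + 1) + D * (b + D) ^ (k + 1) := by ring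
      _ ≤ b * (b ^ (k + 1) + (k + 1) * D * (b + D) ^ k) + D * (b + D) ^ (k + 1) :=
          Nat.add_le_add_right (Nat.mul_le_mul_left b ih) _
      _ = b ^ (k + 1 + 1) + (k + 1) * D * (b * (b + D) ^ k) + D * (b + D) ^ (k + 1) := by ring
      _ ≤ b ^ (k + 1 + 1) + (k + 1) * D * (b + D) ^ (k + 1) + D * (b + D) ^ (k + 1) :=
          Nat.add_le_add_right (Nat.add_le_add_left (Nat.mul_le_mul_left _ h1) _) _
      _ = b ^ (k + 1 + 1) + (k + 1 + 1) * D * (b + D) ^ (k + 1) := by ring

/-- **Sums of products with almost equal factors.** -/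
theorem main (d t s : ℕ) (ht : 2 ≤ t) (hs : t * d + 1 ≤ s) : ∃ B K N : ℕ, ∀ n, N ≤ n →
    ∃ a x : ℕ, (B + 1) * a ≤ x ∧ 0 < a ∧ d ≤ a ∧ a ^ t ≤ x ∧ x ≤ K * a ^ t ∧ ∃ b y : ℕ → ℕ,
      (∀ i, x ≤ b i ∧ b i ≤ x + d + a ^ (t - 1)) ∧
      (∀ i, 0 < y i ∧ |(y i : ℤ) - b i| ≤ B * a) ∧ (∀ i, t * d + 1 ≤ i → y i = b i) ∧
      ∑ i ∈ range s, b i ^ d * y i = n := by
  set D : ℕ := d.factorial with hDdef
  have hD : 0 < D := Nat.factorial_pos d
  have hs1 : 1 ≤ s := by omega
  set K : ℕ := 4 * s * 2 ^ t with hK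
  obtain ⟨B, A, hcore⟩ := core d t K (s * ((d + 1) * D * (K + 3) ^ d)) (by omega)
  -- the parameter `a`
  set A' : ℕ := A + B + D + d + 2 with hA'
  set f : ℕ → ℕ := fun a => s * (4 * a ^ t) ^ (d + 1) with hf
  refine ⟨B, K, f A', ?_⟩
  intro n hn
  have hfa : ∀ a, a ≤ f a := by
    intro a
    have h1 : a ≤ a ^ t := by
      rcases Nat.eq_zero_or_pos a with h | h
      · subst h; exact Nat.zero_le _
      · calc a = a ^ 1 := (pow_one a).symm
          _ ≤ a ^ t := Nat.pow_le_pow_right h (by omega)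
    have h2 : 4 * a ^ t ≤ (4 * a ^ t) ^ (d + 1) := by
      rcases Nat.eq_zero_or_pos (4 * a ^ t) with h | h
      · rw [h]; exact Nat.zero_le _
      · calc 4 * a ^ t = (4 * a ^ t) ^ 1 := (pow_one _).symm
          _ ≤ (4 * a ^ t) ^ (d + 1) := Nat.pow_le_pow_right h (by omega)
    calc a ≤ 4 * a ^ t := by omega
      _ ≤ (4 * a ^ t) ^ (d + 1) := h2
      _ ≤ s * (4 * a ^ t) ^ (d + 1) := Nat.le_mul_of_pos_left _ hs1
  obtain ⟨a, haA, ha1, ha2⟩ := exists_step f hfa A' n hn
  have ha0 : 0 < a := by omega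
  have hat : a ≤ a ^ t := by
    calc a = a ^ 1 := (pow_one a).symm
      _ ≤ a ^ t := Nat.pow_le_pow_right ha0 (by omega)
  have hat1 : a ^ (t - 1) ≤ a ^ t := Nat.pow_le_pow_right ha0 (by omega)
  -- the offsets
  set o : ℕ → ℕ := fun i => if i < t * d + 1 then off t a i else 0 with ho
  have hole : ∀ i, o i ≤ d + a ^ (t - 1) := by
    intro i
    simp only [ho]
    split_ifs with h
    · exact off_le (by omega) ha0 h
    · exact Nat.zero_le _
  have ho0 : o 0 = 0 := by simp [ho, off]
  set S : ℕ → ℕ := fun x => ∑ i ∈ range s, (x + o i) ^ (d + 1) with hS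
  have hSle : ∀ x T, (∀ i, x + o i ≤ T) → S x ≤ s * T ^ (d + 1) := by
    intro x T hT
    calc S x ≤ ∑ i ∈ range s, T ^ (d + 1) :=
          Finset.sum_le_sum fun i _ => Nat.pow_le_pow_left (hT i) _
      _ = s * T ^ (d + 1) := by rw [Finset.sum_const, card_range, smul_eq_mul]
  have hSge : ∀ x, x ^ (d + 1) ≤ S x := by
    intro x
    have h1 := Finset.single_le_sum (f := fun i => (x + o i) ^ (d + 1)) (s := range s)
      (fun _ _ => Nat.zero_le _) (mem_range.2 hs1)
    simp only [ho0, Nat.add_zero] at h1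
    exact h1
  have hSself : ∀ x, x ≤ S x := by
    intro x
    refine le_trans ?_ (hSge x)
    rcases Nat.eq_zero_or_pos x with h | h
    · subst h; exact Nat.zero_le _
    · calc x = x ^ 1 := (pow_one x).symm
        _ ≤ x ^ (d + 1) := Nat.pow_le_pow_right h (by omega)
  -- the base `x = 1 + D m`
  obtain ⟨m, -, hm1, hm2⟩ := exists_step (fun m => S (1 + D * m)) (by
    intro m
    refine le_trans ?_ (hSself _)
    have := Nat.le_mul_of_pos_left m hD
    omega) 0 n (by
      refine le_trans (hSle _ (4 * a ^ t) ?_) ha1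
      intro i
      have h1 := hole i
      rw [Nat.mul_zero]
      omega)
  set x : ℕ := 1 + D * m with hx
  have hx' : 1 + D * (m + 1) = x + D := by rw [hx]; ring
  simp only [hx'] at hm2
  have hxa : a ^ t ≤ x := by
    by_contra hcon
    push Not at hcon
    have h1 : S (x + D) ≤ s * (4 * a ^ t) ^ (d + 1) := by
      apply hSle
      intro i
      have h1 := hole i
      omega
    have h2 : s * (4 * a ^ t) ^ (d + 1) ≤ n := ha1
    omega
  have hxK : x ≤ K * a ^ t := by
    have h1 : x ^ (d + 1) < (K * a ^ t) ^ (d + 1) := by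
      calc x ^ (d + 1) ≤ S x := hSge x
        _ ≤ n := hm1
        _ < s * (4 * (a + 1) ^ t) ^ (d + 1) := ha2
        _ ≤ s ^ (d + 1) * (4 * (2 * a) ^ t) ^ (d + 1) := by
            apply Nat.mul_le_mul
            · calc s = s ^ 1 := (pow_one s).symm
                _ ≤ s ^ (d + 1) := Nat.pow_le_pow_right hs1 (by omega)
            · apply Nat.pow_le_pow_left
              apply Nat.mul_le_mul_left
              apply Nat.pow_le_pow_left
              omega
        _ = (K * a ^ t) ^ (d + 1) := by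
            rw [← mul_pow, hK]
            congr 1
            rw [mul_pow]
            ring
    exact (lt_of_pow_lt_pow_left₀ (d + 1) (Nat.zero_le _) h1).le
  -- the remainder
  have hR : n ≤ S x + s * ((d + 1) * D * (K + 3) ^ d) * a ^ (t * d) := by
    have h1 : S (x + D) ≤ S x + ∑ i ∈ range s, (d + 1) * D * ((K + 3) * a ^ t) ^ d := by
      simp only [hS]
      rw [← Finset.sum_add_distrib]
      apply Finset.sum_le_sum
      intro i _
      have h2 := pow_step (x + o i) D d
      have h3 : x + o i + D ≤ (K + 3) * a ^ t := by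
        have := hole i
        rw [Nat.add_mul]
        omega
      rw [show x + D + o i = x + o i + D by ring]
      refine h2.trans ?_
      apply Nat.add_le_add_left
      apply Nat.mul_le_mul_left
      exact Nat.pow_le_pow_left h3 d
    rw [Finset.sum_const, card_range, smul_eq_mul] at h1
    have h2 : s * ((d + 1) * D * ((K + 3) * a ^ t) ^ d) =
        s * ((d + 1) * D * (K + 3) ^ d) * a ^ (t * d) := by
      rw [mul_pow, pow_mul]; ring
    rw [h2] at h1
    omega
  obtain ⟨z, hz1, hz2⟩ := hcore a (by omega) x hxa hxK (by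
    rw [hx]
    push_cast
    exact ⟨m, by ring⟩) ((n : ℤ) - S x) (by
      have : (S x : ℤ) ≤ n := by exact_mod_cast hm1
      linarith) (by
      have : (n : ℤ) ≤ S x + (s * ((d + 1) * D * (K + 3) ^ d) : ℕ) * (a : ℤ) ^ (t * d) := by
        exact_mod_cast hR
      linarith)
  have hxB : (B + 1) * a ≤ x := by
    calc (B + 1) * a ≤ a * a := Nat.mul_le_mul_right _ (by omega)
      _ = a ^ 2 := by ring
      _ ≤ a ^ t := Nat.pow_le_pow_right ha0 ht
      _ ≤ x := hxa
  have hyz : ∀ i, 0 < (x : ℤ) + o i + z i := by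
    intro i
    have h1 := hz1 i
    have h2 : ((B : ℤ) + 1) * a ≤ x := by exact_mod_cast hxB
    have h3 := (abs_le.1 h1).1
    have h4 : (0 : ℤ) < a := by exact_mod_cast ha0
    nlinarith [Int.natCast_nonneg (o i)]
  refine ⟨a, x, hxB, ha0, by omega, hxa, hxK, fun i => x + o i,
    fun i => if i < t * d + 1 then ((x : ℤ) + o i + z i).toNat else x + o i, ?_, ?_, ?_, ?_⟩
  · intro i
    have := hole i
    show x ≤ x + o i ∧ x + o i ≤ x + d + a ^ (t - 1)
    omega
  · intro i
    show 0 < (if i < t * d + 1 then ((x : ℤ) + o i + z i).toNat else x + o i) ∧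
      |((if i < t * d + 1 then ((x : ℤ) + o i + z i).toNat else x + o i : ℕ) : ℤ) -
        ((x + o i : ℕ) : ℤ)| ≤ B * a
    split_ifs with h
    · have h1 := hyz i
      refine ⟨by omega, ?_⟩
      rw [Int.toNat_of_nonneg h1.le]
      have h2 : (x : ℤ) + o i + z i - ((x + o i : ℕ) : ℤ) = z i := by push_cast; ring
      rw [h2]
      exact hz1 i
    · refine ⟨by omega, ?_⟩
      rw [sub_self, abs_zero]
      positivity
  · intro i hi
    show (if i < t * d + 1 then ((x : ℤ) + o i + z i).toNat else x + o i) = x + o i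
    rw [if_neg (by omega)]
  · obtain ⟨s', hs'⟩ : ∃ s', s = (t * d + 1) + s' := ⟨s - (t * d + 1), by omega⟩
    have key : ((∑ i ∈ range s, (x + o i) ^ d *
        (if i < t * d + 1 then ((x : ℤ) + o i + z i).toNat else x + o i) : ℕ) : ℤ) = n := by
      push_cast
      have h1 : ∀ i ∈ range s, ((x : ℤ) + o i) ^ d *
          (if i < t * d + 1 then ((((x : ℤ) + o i + z i).toNat : ℕ) : ℤ) else (x : ℤ) + o i) =
          ((x : ℤ) + o i) ^ (d + 1) + (if i < t * d + 1 then z i * ((x : ℤ) + o i) ^ d else 0) := by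
        intro i _
        split_ifs with h
        · rw [Int.toNat_of_nonneg (hyz i).le]
          ring
        · ring
      have h2 : ∑ i ∈ range s, (if i < t * d + 1 then z i * ((x : ℤ) + o i) ^ d else 0) =
          (n : ℤ) - S x := by
        rw [← hz2, hs', Finset.sum_range_add]
        have h3 : ∑ i ∈ range s', (if t * d + 1 + i < t * d + 1 then
            z (t * d + 1 + i) * ((x : ℤ) + o (t * d + 1 + i)) ^ d else 0) = 0 := by
          apply Finset.sum_eq_zero
          intro i _
          rw [if_neg (by omega)]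
        rw [h3, add_zero]
        apply Finset.sum_congr rfl
        intro i hi
        rw [mem_range] at hi
        simp only [ho]
        rw [if_pos hi, if_pos hi]
        push_cast
        ring
      rw [Finset.sum_congr rfl h1, Finset.sum_add_distrib, h2]
      simp only [hS]
      push_cast
      ring
    exact_mod_cast key

end Pool.Agent.H88.War
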