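import Mathlib

set_option autoImplicit false

/-!
The obstruction of Wright for sums of products of almost equal factors.
-/

namespace Pool.Agent.H88.War

open Finset

/-- `n` is a sum of `s` products of `k` integers of the interval `[x, x + C √x]` -/
def IsSum (k s : ℕ) (C : ℝ) (n : ℕ) : Prop :=
  ∃ (x : ℕ) (a : Fin s → Fin k → ℕ), 1 ≤ x ∧ (∀ i j, (a i j : ℝ) ≤ C * √x) ∧
    n = ∑ i, ∏ j, (x + a i j)

lemma prod_bounds {ι : Type*} (T : Finset ι) (u : ι → ℝ) (δ : ℝ) (hδ : δ ≤ 1)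
    (hu : ∀ i ∈ T, 0 ≤ u i ∧ u i ≤ δ) (hδ0 : 0 ≤ δ) :
    1 + ∑ i ∈ T, u i ≤ ∏ i ∈ T, (1 + u i) ∧
      ∏ i ∈ T, (1 + u i) ≤ 1 + ∑ i ∈ T, u i + 3 ^ T.card * δ ^ 2 := by
  classical
  induction T using Finset.induction with
  | empty => simp; positivity
  | insert a T ha ih =>
    obtain ⟨h1, h2⟩ := ih (fun i hi => hu i (Finset.mem_insert_of_mem hi))
    obtain ⟨h3, h4⟩ := hu a (Finset.mem_insert_self _ _)
    rw [Finset.sum_insert ha, Finset.prod_insert ha, Finset.card_insert_of_notMem ha]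
    have h5 : 0 ≤ ∑ i ∈ T, u i :=
      Finset.sum_nonneg fun i hi => (hu i (Finset.mem_insert_of_mem hi)).1
    have h6 : ∑ i ∈ T, u i ≤ T.card * δ := by
      calc ∑ i ∈ T, u i ≤ ∑ i ∈ T, δ :=
            Finset.sum_le_sum fun i hi => (hu i (Finset.mem_insert_of_mem hi)).2
        _ = T.card * δ := by rw [Finset.sum_const, nsmul_eq_mul]
    have h7 : (T.card : ℝ) ≤ 3 ^ T.card := by
      exact_mod_cast (Nat.lt_pow_self (n := T.card) (by norm_num : 1 < 3)).le
    constructor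
    · nlinarith
    · have h8 : u a * ∑ i ∈ T, u i ≤ δ * (T.card * δ) := mul_le_mul h4 h6 h5 hδ0
      have h9 : δ * (T.card * δ) ≤ 3 ^ T.card * δ ^ 2 := by
        nlinarith [mul_le_mul_of_nonneg_right h7 (sq_nonneg δ)]
      have h10 : u a * (3 ^ T.card * δ ^ 2) ≤ 1 * (3 ^ T.card * δ ^ 2) :=
        mul_le_mul_of_nonneg_right (h4.trans hδ) (by positivity)
      have h11 : (1 + u a) * ∏ i ∈ T, (1 + u i) ≤
          (1 + u a) * (1 + ∑ i ∈ T, u i + 3 ^ T.card * δ ^ 2) :=
        mul_le_mul_of_nonneg_left h2 (by linarith)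
      rw [pow_succ]
      nlinarith

/-- a sum of products of integers of a short interval is near a value `s (m / (k s)) ^ k` -/
lemma near_value (k s : ℕ) (hk : 2 ≤ k) (hs : 1 ≤ s) (c : ℝ) (hc0 : 0 < c) (hc1 : c ≤ 1)
    (hc : (s : ℝ) * 3 ^ k * c ≤ 1 / (8 * k)) (n : ℕ) (h : IsSum k s c n) :
    ∃ m : ℕ, |(n : ℝ) - s * ((m : ℝ) / (k * s)) ^ k| ≤ ((m : ℝ) / (k * s)) ^ (k - 1) / (8 * k) := by
  obtain ⟨x, a, hx, ha, hn⟩ := h
  have hx0 : (0 : ℝ) < x := by exact_mod_cast (by omega : 0 < x)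
  have hx1 : (1 : ℝ) ≤ x := by exact_mod_cast hx
  have hs0 : (0 : ℝ) < s := by exact_mod_cast hs
  have hk0 : (0 : ℝ) < k := by exact_mod_cast (by omega : 0 < k)
  set E : ℕ := ∑ i, ∑ j, a i j with hE
  refine ⟨k * s * x + E, ?_⟩
  -- relative quantities
  set δ : ℝ := c / √x with hδ
  have hsq : 0 < √(x : ℝ) := Real.sqrt_pos.2 hx0
  have hsq1 : 1 ≤ √(x : ℝ) := Real.one_le_sqrt.2 hx1
  have hδ0 : 0 ≤ δ := by positivity
  have hδ1 : δ ≤ 1 := by
    rw [hδ, div_le_one hsq]
    linarith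
  have hδ2 : δ ^ 2 * x = c ^ 2 := by
    rw [hδ, div_pow, Real.sq_sqrt hx0.le]
    field_simp
  have hu : ∀ i j, 0 ≤ (a i j : ℝ) / x ∧ (a i j : ℝ) / x ≤ δ := by
    intro i j
    refine ⟨by positivity, ?_⟩
    rw [hδ, div_le_div_iff₀ hx0 hsq]
    calc (a i j : ℝ) * √x ≤ (c * √x) * √x := mul_le_mul_of_nonneg_right (ha i j) hsq.le
      _ = c * x := by rw [mul_assoc, Real.mul_self_sqrt hx0.le]
  -- the sum
  have hnx : (n : ℝ) = x ^ k * ∑ i, ∏ j, (1 + (a i j : ℝ) / x) := by
    rw [hn]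
    push_cast
    rw [Finset.mul_sum]
    apply Finset.sum_congr rfl
    intro i _
    have h1 : ∀ j : Fin k, ((x : ℝ) + a i j) = x * (1 + (a i j : ℝ) / x) := by
      intro j
      field_simp
    rw [Finset.prod_congr rfl (fun j _ => h1 j), Finset.prod_mul_distrib, Finset.prod_const,
      Finset.card_univ, Fintype.card_fin]
  set U : ℝ := (E : ℝ) / x with hU
  have hUsum : ∑ i, ∑ j, (a i j : ℝ) / x = U := by
    rw [hU, hE]
    push_cast
    rw [Finset.sum_div]
    exact Finset.sum_congr rfl fun i _ => (Finset.sum_div _ _ _).symm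
  have hlow : (s : ℝ) + U ≤ ∑ i, ∏ j, (1 + (a i j : ℝ) / x) := by
    rw [← hUsum]
    calc (s : ℝ) + ∑ i, ∑ j, (a i j : ℝ) / x = ∑ i : Fin s, (1 + ∑ j, (a i j : ℝ) / x) := by
          rw [Finset.sum_add_distrib]; simp
      _ ≤ _ := Finset.sum_le_sum fun i _ =>
          (prod_bounds univ (fun j => (a i j : ℝ) / x) δ hδ1 (fun j _ => hu i j) hδ0).1
  have hupp : ∑ i, ∏ j, (1 + (a i j : ℝ) / x) ≤ s + U + s * (3 ^ k * δ ^ 2) := by
    rw [← hUsum]
    calc ∑ i, ∏ j, (1 + (a i j : ℝ) / x) ≤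
          ∑ i : Fin s, (1 + ∑ j, (a i j : ℝ) / x + 3 ^ k * δ ^ 2) :=
          Finset.sum_le_sum fun i _ => by
            have := (prod_bounds univ (fun j => (a i j : ℝ) / x) δ hδ1 (fun j _ => hu i j) hδ0).2
            rwa [Finset.card_univ, Fintype.card_fin] at this
      _ = _ := by
          rw [Finset.sum_add_distrib, Finset.sum_add_distrib]; simp
  -- the comparison value
  set v : ℝ := U / (k * s) with hv
  have hU0 : 0 ≤ U := by positivity
  have hUle : U ≤ k * s * δ := by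
    rw [← hUsum]
    calc ∑ i, ∑ j, (a i j : ℝ) / x ≤ ∑ i : Fin s, ∑ j : Fin k, δ :=
          Finset.sum_le_sum fun i _ => Finset.sum_le_sum fun j _ => (hu i j).2
      _ = k * s * δ := by
          simp only [Finset.sum_const, Finset.card_univ, Fintype.card_fin, nsmul_eq_mul]; ring
  have hv0 : 0 ≤ v := by positivity
  have hvδ : v ≤ δ := by
    rw [hv, div_le_iff₀ (by positivity)]
    linarith
  have hw : ((k * s * x + E : ℕ) : ℝ) / (k * s) = x * (1 + v) := by
    rw [hv, hU]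
    push_cast
    field_simp
  have hpow := prod_bounds (Finset.univ : Finset (Fin k)) (fun _ => v) δ hδ1
    (fun _ _ => ⟨hv0, hvδ⟩) hδ0
  simp only [Finset.prod_const, Finset.sum_const, Finset.card_univ, Fintype.card_fin,
    nsmul_eq_mul] at hpow
  have hkv : (s : ℝ) * (k * v) = U := by
    rw [hv]
    field_simp
  rw [hw, mul_pow, hnx]
  have hxk : (0 : ℝ) < x ^ k := by positivity
  have h1 : |(x : ℝ) ^ k * ∑ i, ∏ j, (1 + (a i j : ℝ) / x) - s * (x ^ k * (1 + v) ^ k)| ≤
      x ^ k * (s * (3 ^ k * δ ^ 2)) := by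
    have e1 : (x : ℝ) ^ k * ∑ i, ∏ j, (1 + (a i j : ℝ) / x) - s * (x ^ k * (1 + v) ^ k) =
        x ^ k * (∑ i, ∏ j, (1 + (a i j : ℝ) / x) - s * (1 + v) ^ k) := by ring
    rw [e1, abs_mul, abs_of_pos hxk]
    apply mul_le_mul_of_nonneg_left _ hxk.le
    have h2 : (s : ℝ) + U ≤ s * (1 + v) ^ k := by
      have := mul_le_mul_of_nonneg_left hpow.1 hs0.le
      nlinarith
    have h3 : s * (1 + v) ^ k ≤ (s : ℝ) + U + s * (3 ^ k * δ ^ 2) := by
      have := mul_le_mul_of_nonneg_left hpow.2 hs0.le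
      nlinarith
    rw [abs_le]
    constructor <;> linarith
  refine h1.trans ?_
  have hk1 : (x : ℝ) ^ k = x ^ (k - 1) * x := by
    rw [← pow_succ]
    congr 1
    omega
  have h2 : (x : ℝ) ^ k * (s * (3 ^ k * δ ^ 2)) = x ^ (k - 1) * (s * 3 ^ k * c * c) := by
    rw [hk1]
    calc (x : ℝ) ^ (k - 1) * x * (s * (3 ^ k * δ ^ 2)) =
        x ^ (k - 1) * (s * 3 ^ k * (δ ^ 2 * x)) := by ring
      _ = _ := by rw [hδ2]; ring
  rw [h2]
  have h3 : (s : ℝ) * 3 ^ k * c * c ≤ 1 / (8 * k) := by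
    calc (s : ℝ) * 3 ^ k * c * c ≤ s * 3 ^ k * c * 1 :=
          mul_le_mul_of_nonneg_left hc1 (by positivity)
      _ ≤ 1 / (8 * k) := by rw [mul_one]; exact hc
  calc (x : ℝ) ^ (k - 1) * (s * 3 ^ k * c * c) ≤ x ^ (k - 1) * (1 / (8 * k)) :=
        mul_le_mul_of_nonneg_left h3 (by positivity)
    _ ≤ (x * (1 + v)) ^ (k - 1) * (1 / (8 * k)) := by
        apply mul_le_mul_of_nonneg_right _ (by positivity)
        apply pow_le_pow_left₀ hx0.le
        nlinarith
    _ = (x * (1 + v)) ^ (k - 1) / (8 * k) := by ring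

/-- there are gaps between these values -/
lemma obstruction (k s : ℕ) (hk : 2 ≤ k) (hs : 1 ≤ s) : ∃ c : ℝ, 0 < c ∧ ∀ N : ℕ, ∃ n, N ≤ n ∧
    ¬ IsSum k s c n := by
  have hs0 : (0 : ℝ) < s := by exact_mod_cast hs
  have hs1 : (1 : ℝ) ≤ s := by exact_mod_cast hs
  have hk0 : (0 : ℝ) < k := by exact_mod_cast (by omega : 0 < k)
  have hk2 : (2 : ℝ) ≤ k := by exact_mod_cast hk
  refine ⟨1 / (8 * k * s * 3 ^ k), by positivity, fun N => ?_⟩
  set c : ℝ := 1 / (8 * k * s * 3 ^ k) with hc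
  have hc1 : c ≤ 1 := by
    rw [hc, div_le_one (by positivity)]
    have h1 : (1 : ℝ) ≤ 3 ^ k := one_le_pow₀ (by norm_num)
    nlinarith [mul_le_mul hk2 hs1 (by norm_num) hk0.le]
  have hc2 : (s : ℝ) * 3 ^ k * c ≤ 1 / (8 * k) := by
    rw [hc]
    apply le_of_eq
    field_simp
  -- the gap
  set M : ℕ := k * s * (8 + N) with hM
  set w : ℝ := (M : ℝ) / (k * s) with hw
  have hwv : w = 8 + N := by
    rw [hw, hM]
    push_cast
    field_simp
  have hw8 : 8 ≤ w := by rw [hwv]; linarith [(Nat.cast_nonneg N : (0 : ℝ) ≤ N)]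
  have hw0 : 0 < w := by linarith
  have hy8 : 8 ≤ w ^ (k - 1) := by
    calc (8 : ℝ) ≤ w := hw8
      _ = w ^ 1 := (pow_one w).symm
      _ ≤ w ^ (k - 1) := pow_le_pow_right₀ (by linarith) (by omega)
  set y : ℝ := w ^ (k - 1) with hy
  have hwk : w ^ k = w * y := by
    rw [hy, ← pow_succ']
    congr 1
    omega
  refine ⟨⌈s * w ^ k + y / 4⌉₊, ?_, ?_⟩
  · have h1 : (N : ℝ) ≤ s * w ^ k + y / 4 := by
      rw [hwk]
      have h2 : (N : ℝ) ≤ w := by rw [hwv]; linarith
      have h3 : w ≤ w * y := by nlinarith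
      have h4 : w * y ≤ s * (w * y) := by nlinarith [mul_pos hw0 (by linarith : (0 : ℝ) < y)]
      linarith
    exact_mod_cast h1.trans (Nat.le_ceil _)
  · intro hsum
    obtain ⟨m, hm⟩ := near_value k s hk hs c (by positivity) hc1 hc2 _ hsum
    set n : ℝ := ((⌈s * w ^ k + y / 4⌉₊ : ℕ) : ℝ) with hn
    have hn1 : s * w ^ k + y / 4 ≤ n := Nat.le_ceil _
    have hn2 : n < s * w ^ k + y / 4 + 1 := Nat.ceil_lt_add_one (by positivity)
    set r : ℝ := (m : ℝ) / (k * s) with hr
    have hr0 : 0 ≤ r := by positivity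
    rw [abs_le] at hm
    have hk8 : 1 / (8 * (k : ℝ)) ≤ 1 / 16 := by
      apply one_div_le_one_div_of_le (by norm_num)
      linarith
    have hrk : r ^ k = r * r ^ (k - 1) := by
      rw [← pow_succ']
      congr 1
      omega
    rcases Nat.lt_or_ge M m with hMm | hMm
    · -- `m ≥ M + 1`
      have hM0 : (0 : ℝ) < M := by
        have h1 : 0 < M := by rw [hM]; positivity
        exact_mod_cast h1
      have h1 : w + 1 / (k * s) ≤ r := by
        rw [hw, hr, ← add_div]
        apply div_le_div_of_nonneg_right _ (by positivity)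
        exact_mod_cast hMm
      have hMw : (M : ℝ) = k * s * w := by rw [hw]; field_simp
      have h2 : w * (1 + 1 / M) = w + 1 / (k * s) := by
        rw [hMw]
        field_simp
      have h3 : y * (1 + (k - 1 : ℕ) * (1 / M)) ≤ r ^ (k - 1) := by
        calc y * (1 + (k - 1 : ℕ) * (1 / M)) ≤ y * (1 + 1 / M) ^ (k - 1) := by
              apply mul_le_mul_of_nonneg_left _ (by linarith)
              exact one_add_mul_le_pow (by have : (0 : ℝ) < 1 / M := by positivity
                                           linarith) (k - 1)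
          _ = (w * (1 + 1 / M)) ^ (k - 1) := by rw [hy, mul_pow]
          _ ≤ r ^ (k - 1) := by
              rw [h2]
              exact pow_le_pow_left₀ (by positivity) h1 _
      have hkc : ((k - 1 : ℕ) : ℝ) = k - 1 := by
        rw [Nat.cast_sub (by omega)]; simp
      rw [hkc] at h3
      have h4 : s * w + 7 / (8 * k) ≤ s * r - 1 / (8 * k) := by
        have h5 : s * (w + 1 / (k * s)) ≤ s * r := mul_le_mul_of_nonneg_left h1 hs0.le
        have h6 : s * (w + 1 / (k * s)) = s * w + 1 / k := by field_simp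
        have h7 : (7 : ℝ) / (8 * k) + 1 / (8 * k) = 1 / k := by field_simp; norm_num
        linarith
      have h5 : (s * w + 7 / (8 * k)) * (y * (1 + (k - 1) * (1 / M))) ≤
          (s * r - 1 / (8 * k)) * r ^ (k - 1) := by
        apply mul_le_mul h4 h3
        · have : (0 : ℝ) ≤ (k - 1) * (1 / M) := mul_nonneg (by linarith) (by positivity)
          have : (0 : ℝ) < y := by linarith
          positivity
        · have : (0 : ℝ) ≤ s * w + 7 / (8 * k) := by positivity
          linarith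
      have h6 : (s * r - 1 / (8 * k)) * r ^ (k - 1) = s * r ^ k - r ^ (k - 1) / (8 * k) := by
        rw [hrk]; ring
      have h7 : (s * w + 7 / (8 * k)) * (y * (1 + (k - 1) * (1 / M))) ≥
          s * w ^ k + y * (7 / 8) := by
        have h8 : s * w * ((k - 1) * (1 / M)) = (k - 1) / k := by
          rw [hMw]
          field_simp
        have h9 : (0 : ℝ) ≤ 7 / (8 * k) * ((k - 1) * (1 / M)) := by
          apply mul_nonneg (by positivity)
          exact mul_nonneg (by linarith) (by positivity)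
        have h10 : (s * w + 7 / (8 * k)) * (1 + (k - 1) * (1 / M)) ≥ s * w + 7 / 8 := by
          have h11 : (k - 1 : ℝ) / k = 1 - 1 / k := by field_simp
          have h12 : (7 : ℝ) / (8 * k) = 7 / 8 * (1 / k) := by field_simp
          have h13 : (1 : ℝ) / k ≤ 1 := by
            rw [div_le_one hk0]; linarith
          nlinarith
        rw [hwk]
        nlinarith
      have h8 : n < s * w ^ k + y * (3 / 8) := by linarith
      linarith [hm.1]
    · -- `m ≤ M`
      have h1 : r ≤ w := by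
        rw [hw, hr]
        apply div_le_div_of_nonneg_right _ (by positivity)
        exact_mod_cast hMm
      have h2 : r ^ k ≤ w ^ k := pow_le_pow_left₀ hr0 h1 k
      have h3 : r ^ (k - 1) ≤ y := pow_le_pow_left₀ hr0 h1 _
      have h4 : r ^ (k - 1) / (8 * k) ≤ y * (1 / 16) := by
        have h6 := mul_le_mul h3 hk8 (by positivity) (by linarith : (0 : ℝ) ≤ y)
        rw [div_eq_mul_one_div]
        exact h6
      have h5 : s * r ^ k ≤ s * w ^ k := mul_le_mul_of_nonneg_left h2 hs0.le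
      linarith [hm.2]

end Pool.Agent.H88.War
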