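import Pool.Agent.H88.War.Diff

set_option autoImplicit false

/-!
Representations by powers with small coefficients.
-/

namespace Pool.Agent.H88.War

open Finset

/-- `M` is a combination of the `d`-th powers of `x + c l`, `l < L`, with coefficients of absolute
value at most `B` -/
def W (d x L : ℕ) (c : ℕ → ℕ) (M B : ℤ) : Prop :=
  ∃ z : ℕ → ℤ, (∀ l, |z l| ≤ B) ∧ ∑ l ∈ range L, z l * ((x + c l : ℕ) : ℤ) ^ d = M

variable {d x L : ℕ} {c : ℕ → ℕ}

lemma W.mono {M B B' : ℤ} (h : W d x L c M B) (hB : B ≤ B') : W d x L c M B' := by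
  obtain ⟨z, h1, h2⟩ := h
  exact ⟨z, fun l => (h1 l).trans hB, h2⟩

lemma W_zero : W d x L c 0 0 := ⟨fun _ => 0, fun _ => by simp, by simp⟩

lemma W.add {M M' B B' : ℤ} (h : W d x L c M B) (h' : W d x L c M' B') :
    W d x L c (M + M') (B + B') := by
  obtain ⟨z, h1, h2⟩ := h
  obtain ⟨z', h1', h2'⟩ := h'
  refine ⟨fun l => z l + z' l, fun l => (abs_add_le _ _).trans (add_le_add (h1 l) (h1' l)), ?_⟩
  rw [← h2, ← h2', ← Finset.sum_add_distrib]
  exact Finset.sum_congr rfl fun l _ => by ring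

lemma W.smul {M B : ℤ} (h : W d x L c M B) (a A : ℤ) (ha : |a| ≤ A) :
    W d x L c (a * M) (A * B) := by
  obtain ⟨z, h1, h2⟩ := h
  refine ⟨fun l => a * z l, fun l => ?_, ?_⟩
  · rw [abs_mul]
    exact mul_le_mul ha (h1 l) (abs_nonneg _) ((abs_nonneg _).trans ha)
  · rw [← h2, Finset.mul_sum]
    exact Finset.sum_congr rfl fun l _ => by ring

lemma W.sub {M M' B B' : ℤ} (h : W d x L c M B) (h' : W d x L c M' B') :
    W d x L c (M - M') (B + B') := by
  have h1 := h.add (h'.smul (-1) 1 (by simp))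
  convert h1 using 1 <;> ring

lemma W_sum {ι : Type*} (s : Finset ι) (M B : ι → ℤ)
    (h : ∀ i ∈ s, W d x L c (M i) (B i)) : W d x L c (∑ i ∈ s, M i) (∑ i ∈ s, B i) := by
  classical
  induction s using Finset.induction with
  | empty => simpa using W_zero
  | insert a s ha ih =>
    rw [Finset.sum_insert ha, Finset.sum_insert ha]
    exact (h a (Finset.mem_insert_self _ _)).add
      (ih fun i hi => h i (Finset.mem_insert_of_mem hi))

lemma W_single {l : ℕ} (hl : l < L) : W d x L c (((x + c l : ℕ) : ℤ) ^ d) 1 := by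
  refine ⟨fun i => if i = l then 1 else 0, fun i => ?_, ?_⟩
  · show |(if i = l then (1 : ℤ) else 0)| ≤ 1
    split_ifs <;> simp
  · simp only [ite_mul, one_mul, zero_mul]
    rw [Finset.sum_ite_eq' (range L) l, if_pos (mem_range.2 hl)]

lemma W_P {m u : ℕ} (h : ∀ i, i ≤ m → ∃ l, l < L ∧ c l = u + i) :
    W d x L c (P d m (x + u)) (2 ^ m) := by
  rw [P_eq]
  have h1 : (∑ i ∈ range (m + 1), (m.choose i : ℤ)) = 2 ^ m := by
    exact_mod_cast Nat.sum_range_choose m
  rw [← h1]
  apply W_sum
  intro i hi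
  obtain ⟨l, hl, hc⟩ := h i (by rw [mem_range] at hi; omega)
  have h2 := (W_single (d := d) (x := x) (c := c) hl).smul ((-1) ^ (m - i) * (m.choose i : ℤ))
    (m.choose i : ℤ) (by
      rw [abs_mul, abs_pow, abs_neg, abs_one, one_pow, one_mul, Nat.abs_cast])
  rw [mul_one, hc] at h2
  rw [show x + u + i = x + (u + i) by ring]
  exact h2

/-- the greedy algorithm -/
lemma greedy (M : ℕ → ℤ) (B K D : ℤ) (hD : 0 < D) (hK : 0 ≤ K) (n : ℕ) (h0 : M 0 = D)
    (hpos : ∀ l, l ≤ n → 0 < M l) (hratio : ∀ l, l < n → M (l + 1) ≤ K * M l)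
    (hW : ∀ l, l ≤ n → W d x L c (M l) B) :
    ∀ l, l ≤ n → ∀ R : ℤ, 0 ≤ R → R ≤ D * K * M l → D ∣ R →
      W d x L c R ((l + 1) * (D * K * B)) := by
  intro l
  induction l with
  | zero =>
    intro hl R hR0 hR hdvd
    obtain ⟨δ, rfl⟩ := hdvd
    rw [h0] at hR
    have h1 : 0 ≤ δ := by
      by_contra h
      push Not at h
      nlinarith
    have h2 : δ ≤ D * K := by
      by_contra h
      push Not at h
      nlinarith
    have h3 := (hW 0 hl).smul δ (D * K) (by rw [abs_of_nonneg h1]; exact h2)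
    rw [h0] at h3
    convert h3 using 1
    · ring
    · push_cast; ring
  | succ l ih =>
    intro hl R hR0 hR hdvd
    have hM := hpos (l + 1) hl
    have hDM : 0 < D * M (l + 1) := mul_pos hD hM
    set δ := R / (D * M (l + 1)) with hδ
    have hR' := Int.emod_add_mul_ediv R (D * M (l + 1))
    have h1 : 0 ≤ δ := Int.ediv_nonneg hR0 hDM.le
    have h2 : δ ≤ K := by
      have h3 : δ * (D * M (l + 1)) ≤ R := Int.ediv_mul_le R hDM.ne'
      by_contra h
      push Not at h
      nlinarith
    have h3 : 0 ≤ R % (D * M (l + 1)) := Int.emod_nonneg _ hDM.ne'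
    have h4 : R % (D * M (l + 1)) < D * M (l + 1) := Int.emod_lt_of_pos _ hDM
    have h5 : D ∣ R % (D * M (l + 1)) := by
      rw [Int.emod_def]
      exact dvd_sub hdvd ⟨M (l + 1) * (R / (D * M (l + 1))), by ring⟩
    have h6 : R % (D * M (l + 1)) ≤ D * K * M l := by
      have h7 := mul_le_mul_of_nonneg_left (hratio l (by omega)) hD.le
      nlinarith
    have h7 := ih (by omega) _ h3 h6 h5
    have h8 := (hW (l + 1) hl).smul (D * δ) (D * K) (by
      rw [abs_of_nonneg (mul_nonneg hD.le h1)]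
      exact mul_le_mul_of_nonneg_left h2 hD.le)
    have h9 := h7.add h8
    convert h9 using 1
    · have h10 : D * δ * M (l + 1) = D * M (l + 1) * (R / (D * M (l + 1))) := by rw [hδ]; ring
      rw [h10]
      exact hR'.symm
    · push_cast; ring

/-- the offsets of the bases -/
def off (t a l : ℕ) : ℕ := l / t + if l % t = 0 then 0 else a ^ (l % t)

/-- the moduli -/
def Mo (d t a x l : ℕ) : ℤ :=
  if l % t = 0 then P d (d - l / t) x
  else P d (d - l / t - 1) (x + a ^ (l % t)) - P d (d - l / t - 1) x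

lemma off_le {t a l d : ℕ} (ht : 0 < t) (ha : 1 ≤ a) (hl : l < t * d + 1) :
    off t a l ≤ d + a ^ (t - 1) := by
  unfold off
  have h1 : l / t ≤ d := by
    have : l / t ≤ (t * d) / t := Nat.div_le_div_right (by omega)
    rwa [Nat.mul_div_cancel_left d ht] at this
  have h2 : (if l % t = 0 then 0 else a ^ (l % t)) ≤ a ^ (t - 1) := by
    split_ifs
    · exact Nat.zero_le _
    · apply Nat.pow_le_pow_right ha
      have := Nat.mod_lt l ht
      omega
  omega

lemma W_Mo {d t a x l : ℕ} (ht : 0 < t) (hl : l ≤ t * d) :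
    W d x (t * d + 1) (off t a) (Mo d t a x l) (2 ^ d) := by
  have hdiv : l / t ≤ d := by
    have : l / t ≤ (t * d) / t := Nat.div_le_div_right (by omega)
    rwa [Nat.mul_div_cancel_left d ht] at this
  have hpt : ∀ i, i ≤ d → ∃ l', l' < t * d + 1 ∧ off t a l' = 0 + i := by
    intro i hi
    refine ⟨t * i, ?_, ?_⟩
    · have := Nat.mul_le_mul_left t hi
      omega
    · unfold off
      rw [Nat.mul_div_cancel_left i ht, Nat.mul_mod_right, if_pos rfl]
      omega
  have hbase : ∀ m, m ≤ d → W d x (t * d + 1) (off t a) (P d m x) (2 ^ m) := by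
    intro m hm
    exact W_P (u := 0) (fun i hi => hpt i (by omega))
  have hpow : ∀ m, m ≤ d → (2 : ℤ) ^ m ≤ 2 ^ d := fun m hm =>
    pow_le_pow_right₀ (by norm_num) hm
  unfold Mo
  split_ifs with h
  · exact (hbase _ (Nat.sub_le _ _)).mono (hpow _ (Nat.sub_le _ _))
  · have hj1 : 0 < l % t := by omega
    have hj2 : l % t < t := Nat.mod_lt l ht
    have hq : l / t < d := by
      rcases Nat.lt_or_ge (l / t) d with h1 | h1
      · exact h1
      · exfalso
        have h2 := Nat.div_add_mod l t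
        have h3 : t * d ≤ t * (l / t) := Nat.mul_le_mul_left t h1
        omega
    obtain ⟨m, hm⟩ : ∃ m, m = d - l / t - 1 := ⟨_, rfl⟩
    rw [← hm]
    have hm1 : m + 1 ≤ d := by
      have := Nat.sub_le d (l / t)
      have := Nat.sub_pos_of_lt hq
      omega
    have h2 : W d x (t * d + 1) (off t a) (P d m (x + a ^ (l % t))) (2 ^ m) := by
      apply W_P
      intro i hi
      refine ⟨t * i + l % t, ?_, ?_⟩
      · have : t * (i + 1) ≤ t * d := Nat.mul_le_mul_left t (by omega)
        rw [Nat.mul_add, Nat.mul_one] at this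
        omega
      · unfold off
        have e1 : (t * i + l % t) / t = i := by
          rw [Nat.mul_add_div ht, Nat.div_eq_of_lt hj2, Nat.add_zero]
        have e2 : (t * i + l % t) % t = l % t := by
          rw [Nat.mul_add_mod, Nat.mod_mod]
        rw [e1, e2, if_neg h]
        omega
    have h3 := h2.sub (hbase m (by omega))
    apply h3.mono
    calc (2 : ℤ) ^ m + 2 ^ m = 2 ^ (m + 1) := by ring
      _ ≤ 2 ^ d := hpow _ hm1

end Pool.Agent.H88.War
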