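import Pool.Agent.H88.War.Rep

set_option autoImplicit false

/-!
The size of the moduli.
-/

namespace Pool.Agent.H88.War

open Finset

lemma P_bounds' (d : ℕ) : ∃ C : ℕ, 0 < C ∧ ∀ q, q ≤ d → ∀ y : ℕ, 2 ^ d ≤ y →
    (y : ℤ) ^ q ≤ C * P d (d - q) y ∧ P d (d - q) y ≤ C * (y : ℤ) ^ q := by
  choose! Cf hC0 hC using P_bounds d
  refine ⟨∑ e ∈ range (d + 1), Cf e, ?_, ?_⟩
  · apply Finset.sum_pos
    · intro e he
      exact hC0 e (by rw [mem_range] at he; omega)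
    · exact ⟨0, by simp⟩
  · intro q hq y hy
    have h1 := hC q hq y (le_trans (Nat.pow_le_pow_right (by norm_num) hq) hy)
    have h2 : Cf q ≤ ∑ e ∈ range (d + 1), Cf e :=
      Finset.single_le_sum (f := Cf) (fun _ _ => Nat.zero_le _) (by rw [mem_range]; omega)
    have h3 : (Cf q : ℤ) ≤ ((∑ e ∈ range (d + 1), Cf e : ℕ) : ℤ) := by exact_mod_cast h2
    have h4 := P_nonneg d (d - q) y
    have h5 : (0 : ℤ) ≤ (y : ℤ) ^ q := by positivity
    exact ⟨h1.1.trans (mul_le_mul_of_nonneg_right h3 h4),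
      h1.2.trans (mul_le_mul_of_nonneg_right h3 h5)⟩

lemma Mo_bounds (d t K : ℕ) (ht : 0 < t) : ∃ C : ℕ, 0 < C ∧ ∀ a, 2 ^ d ≤ a → ∀ x, a ^ t ≤ x →
    x ≤ K * a ^ t → ∀ l, l ≤ t * d →
      (a : ℤ) ^ l ≤ C * Mo d t a x l ∧ Mo d t a x l ≤ C * (a : ℤ) ^ l := by
  obtain ⟨C1, hC1, hb⟩ := P_bounds' d
  refine ⟨C1 * (K + 1) ^ d, by positivity, ?_⟩
  intro a ha x hx1 hx2 l hl
  have ha1 : 1 ≤ a := le_trans Nat.one_le_two_pow ha
  have hat : a ≤ a ^ t := by
    calc a = a ^ 1 := (pow_one a).symm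
      _ ≤ a ^ t := Nat.pow_le_pow_right ha1 ht
  have hx3 : 2 ^ d ≤ x := ha.trans (hat.trans hx1)
  obtain ⟨q, hq⟩ : ∃ q, q = l / t := ⟨_, rfl⟩
  obtain ⟨j, hj⟩ : ∃ j, j = l % t := ⟨_, rfl⟩
  have hjt : j < t := hj ▸ Nat.mod_lt l ht
  have hl2 : l = t * q + j := by rw [hq, hj]; exact (Nat.div_add_mod l t).symm
  have hqd : q ≤ d := by
    by_contra h
    push Not at h
    have h3 : t * (d + 1) ≤ t * q := Nat.mul_le_mul_left t h
    rw [Nat.mul_add] at h3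
    omega
  have hK1 : (1 : ℤ) ≤ (K + 1 : ℤ) ^ d := one_le_pow₀ (by linarith [Int.natCast_nonneg K])
  have hKq : ((K : ℤ) + 1) ^ q ≤ (K + 1 : ℤ) ^ d :=
    pow_le_pow_right₀ (by linarith [Int.natCast_nonneg K]) hqd
  have hal : (a : ℤ) ^ l = (a : ℤ) ^ j * ((a : ℤ) ^ t) ^ q := by
    rw [hl2, pow_add, pow_mul]; ring
  have hxa : ((a : ℤ) ^ t) ^ q ≤ (x : ℤ) ^ q :=
    pow_le_pow_left₀ (by positivity) (by exact_mod_cast hx1) q
  have hC1' : (0 : ℤ) < C1 := by exact_mod_cast hC1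
  -- general bounds
  have key : ∀ y : ℕ, 2 ^ d ≤ y → (y : ℤ) ≤ (K + 1) * (a : ℤ) ^ t →
      P d (d - q) y ≤ C1 * ((K + 1 : ℤ) ^ d * ((a : ℤ) ^ t) ^ q) := by
    intro y hy1 hy2
    calc P d (d - q) y ≤ C1 * (y : ℤ) ^ q := (hb q hqd y hy1).2
      _ ≤ C1 * ((K + 1) * (a : ℤ) ^ t) ^ q :=
          mul_le_mul_of_nonneg_left (pow_le_pow_left₀ (by positivity) hy2 q) hC1'.le
      _ = C1 * ((K + 1 : ℤ) ^ q * ((a : ℤ) ^ t) ^ q) := by rw [mul_pow]
      _ ≤ C1 * ((K + 1 : ℤ) ^ d * ((a : ℤ) ^ t) ^ q) := by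
          apply mul_le_mul_of_nonneg_left _ hC1'.le
          exact mul_le_mul_of_nonneg_right hKq (by positivity)
  have hlow := (hb q hqd x hx3).1
  have hP0 := P_nonneg d (d - q) x
  unfold Mo
  rw [← hq, ← hj]
  split_ifs with h0
  · -- `j = 0`
    rw [h0, pow_zero, one_mul] at hal
    rw [hal]
    push_cast
    constructor
    · calc ((a : ℤ) ^ t) ^ q ≤ (x : ℤ) ^ q := hxa
        _ ≤ C1 * P d (d - q) x := hlow
        _ = C1 * 1 * P d (d - q) x := by ring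
        _ ≤ C1 * (K + 1 : ℤ) ^ d * P d (d - q) x := by
            apply mul_le_mul_of_nonneg_right _ hP0
            exact mul_le_mul_of_nonneg_left hK1 hC1'.le
    · rw [mul_assoc]
      apply key x hx3
      have h1 : (x : ℤ) ≤ K * (a : ℤ) ^ t := by exact_mod_cast hx2
      have h2 : (0 : ℤ) ≤ (a : ℤ) ^ t := by positivity
      linarith
  · -- `j > 0`
    have hq' : q + 1 ≤ d := by
      by_contra h
      push Not at h
      have h3 : q = d := by omega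
      rw [h3] at hl2
      omega
    have hm : d - q - 1 + 1 = d - q := by omega
    have h1 := P_lower d (d - q - 1) x (a ^ j)
    have h2 := P_upper d (d - q - 1) x (a ^ j)
    rw [hm] at h1 h2
    push_cast at h1 h2
    have haj : (0 : ℤ) ≤ (a : ℤ) ^ j := by positivity
    push_cast
    constructor
    · have h3 : ((a : ℤ) ^ t) ^ q ≤ C1 * P d (d - q) x := hxa.trans hlow
      calc (a : ℤ) ^ l = (a : ℤ) ^ j * ((a : ℤ) ^ t) ^ q := hal
        _ ≤ (a : ℤ) ^ j * (C1 * P d (d - q) x) := mul_le_mul_of_nonneg_left h3 haj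
        _ = C1 * ((a : ℤ) ^ j * P d (d - q) x) := by ring
        _ ≤ C1 * (P d (d - q - 1) (x + a ^ j) - P d (d - q - 1) x) :=
            mul_le_mul_of_nonneg_left h1 hC1'.le
        _ = C1 * 1 * (P d (d - q - 1) (x + a ^ j) - P d (d - q - 1) x) := by ring
        _ ≤ C1 * (K + 1 : ℤ) ^ d * (P d (d - q - 1) (x + a ^ j) - P d (d - q - 1) x) := by
            apply mul_le_mul_of_nonneg_right
            · exact mul_le_mul_of_nonneg_left hK1 hC1'.le
            · exact le_trans (mul_nonneg haj hP0) h1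
    · have h3 : a ^ j ≤ a ^ t := Nat.pow_le_pow_right ha1 hjt.le
      have h4 : ((x + a ^ j : ℕ) : ℤ) ≤ (K + 1) * (a : ℤ) ^ t := by
        have : x + a ^ j ≤ (K + 1) * a ^ t := by
          rw [Nat.add_mul, Nat.one_mul]
          exact Nat.add_le_add hx2 h3
        exact_mod_cast this
      have h5 := key (x + a ^ j) (by omega) h4
      calc P d (d - q - 1) (x + a ^ j) - P d (d - q - 1) x
          ≤ (a : ℤ) ^ j * P d (d - q) (x + a ^ j) := h2
        _ ≤ (a : ℤ) ^ j * (C1 * ((K + 1 : ℤ) ^ d * ((a : ℤ) ^ t) ^ q)) :=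
            mul_le_mul_of_nonneg_left h5 haj
        _ = C1 * (K + 1 : ℤ) ^ d * (a : ℤ) ^ l := by rw [hal]; ring

/-- every nonnegative number of size `O(a ^ (t d))` is a combination with coefficients `O(a)` -/
lemma core (d t K C0 : ℕ) (ht : 0 < t) : ∃ B A : ℕ, ∀ a, A ≤ a → ∀ x, a ^ t ≤ x →
    x ≤ K * a ^ t → (d.factorial : ℤ) ∣ (x : ℤ) - 1 → ∀ R : ℤ, 0 ≤ R → R ≤ C0 * (a : ℤ) ^ (t * d) →
      W d x (t * d + 1) (off t a) R (B * a) := by
  obtain ⟨C, hC, hM⟩ := Mo_bounds d t K ht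
  set D : ℕ := d.factorial with hDdef
  have hD : 0 < D := Nat.factorial_pos d
  -- the ratio
  set K2 : ℕ := C * C + C * (C0 + D * (K + 1) ^ d) with hK2
  refine ⟨(t * d + 1) * (D * K2) * 2 ^ d + D, 2 ^ d, ?_⟩
  intro a ha x hx1 hx2 hxD R hR0 hR
  have ha1 : 1 ≤ a := le_trans Nat.one_le_two_pow ha
  have ha' : (1 : ℤ) ≤ a := by exact_mod_cast ha1
  have hb := hM a ha x hx1 hx2
  have hCz : (0 : ℤ) < C := by exact_mod_cast hC
  have hDz : (0 : ℤ) < D := by exact_mod_cast hD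
  have hpos : ∀ l, l ≤ t * d → 0 < Mo d t a x l := by
    intro l hl
    have h1 := (hb l hl).1
    have h2 : (0 : ℤ) < (a : ℤ) ^ l := by positivity
    by_contra h
    push Not at h
    nlinarith
  have h0 : Mo d t a x 0 = D := by
    unfold Mo
    rw [Nat.zero_mod, if_pos rfl, Nat.zero_div, Nat.sub_zero, P_top]
  have hratio : ∀ l, l < t * d → Mo d t a x (l + 1) ≤ (K2 * a : ℤ) * Mo d t a x l := by
    intro l hl
    have h1 := (hb (l + 1) (by omega)).2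
    have h2 := (hb l (by omega)).1
    have h3 := hpos l (by omega)
    have h4 : (C : ℤ) * (a : ℤ) ^ (l + 1) ≤ C * a * (C * Mo d t a x l) := by
      calc (C : ℤ) * (a : ℤ) ^ (l + 1) = C * a * (a : ℤ) ^ l := by ring
        _ ≤ C * a * (C * Mo d t a x l) := mul_le_mul_of_nonneg_left h2 (by positivity)
    have h5 : ((C : ℤ) * C) ≤ K2 := by
      rw [hK2]
      push_cast
      have : (0 : ℤ) ≤ C * (C0 + D * (K + 1) ^ d) := by positivity
      linarith
    calc Mo d t a x (l + 1) ≤ C * a * (C * Mo d t a x l) := h1.trans h4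
      _ = (C * C : ℤ) * (a * Mo d t a x l) := by ring
      _ ≤ K2 * (a * Mo d t a x l) := mul_le_mul_of_nonneg_right h5 (by positivity)
      _ = (K2 * a : ℤ) * Mo d t a x l := by ring
  -- make the number divisible by `D`
  obtain ⟨r, hr0, hr1, hr2⟩ : ∃ r : ℤ, 0 ≤ r ∧ r < D ∧ (D : ℤ) ∣ R + r * (x : ℤ) ^ d := by
    refine ⟨(-R) % D, Int.emod_nonneg _ hDz.ne', Int.emod_lt_of_pos _ hDz, ?_⟩
    have h1 : (D : ℤ) ∣ (x : ℤ) ^ d - 1 := by
      have := sub_dvd_pow_sub_pow (x : ℤ) 1 d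
      rw [one_pow] at this
      exact hxD.trans this
    have h2 : (D : ℤ) ∣ R + (-R) % D := by
      have h3 := Int.emod_add_mul_ediv (-R) D
      exact ⟨-((-R) / D), by linarith⟩
    have h3 : R + (-R) % D * (x : ℤ) ^ d = (R + (-R) % D) + (-R) % D * ((x : ℤ) ^ d - 1) := by ring
    rw [h3]
    exact dvd_add h2 (Dvd.dvd.mul_left h1 _)
  have hxz : (x : ℤ) ≤ (K + 1) * (a : ℤ) ^ t := by
    have h1 : (x : ℤ) ≤ K * (a : ℤ) ^ t := by exact_mod_cast hx2
    have h2 : (0 : ℤ) ≤ (a : ℤ) ^ t := by positivity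
    linarith
  have hxd : (x : ℤ) ^ d ≤ (K + 1 : ℤ) ^ d * (a : ℤ) ^ (t * d) := by
    rw [pow_mul, ← mul_pow]
    exact pow_le_pow_left₀ (by positivity) hxz d
  have hbig : R + r * (x : ℤ) ^ d ≤ D * (K2 * a) * Mo d t a x (t * d) := by
    have h1 := (hb (t * d) (le_refl _)).1
    have h2 : r * (x : ℤ) ^ d ≤ D * ((K + 1 : ℤ) ^ d * (a : ℤ) ^ (t * d)) :=
      mul_le_mul hr1.le hxd (by positivity) hDz.le
    have h3 : R + r * (x : ℤ) ^ d ≤ (C0 + D * (K + 1 : ℤ) ^ d) * (a : ℤ) ^ (t * d) := by linarith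
    have hM0 := hpos (t * d) (le_refl _)
    have h4 : (C0 + D * (K + 1 : ℤ) ^ d) * (a : ℤ) ^ (t * d) ≤
        (C0 + D * (K + 1 : ℤ) ^ d) * (C * Mo d t a x (t * d)) :=
      mul_le_mul_of_nonneg_left h1 (by positivity)
    have h5 : ((C : ℤ) * (C0 + D * (K + 1 : ℤ) ^ d)) ≤ K2 := by
      rw [hK2]
      push_cast
      have : (0 : ℤ) ≤ C * C := by positivity
      linarith
    have h6 : (K2 : ℤ) ≤ D * (K2 * a) := by
      have h7 : (1 : ℤ) ≤ D := by exact_mod_cast hD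
      have h8 : (0 : ℤ) ≤ K2 := by positivity
      nlinarith [mul_nonneg h8 (by linarith : (0 : ℤ) ≤ (a : ℤ) - 1)]
    calc R + r * (x : ℤ) ^ d ≤ (C0 + D * (K + 1 : ℤ) ^ d) * (C * Mo d t a x (t * d)) := h3.trans h4
      _ = ((C : ℤ) * (C0 + D * (K + 1 : ℤ) ^ d)) * Mo d t a x (t * d) := by ring
      _ ≤ K2 * Mo d t a x (t * d) := mul_le_mul_of_nonneg_right h5 hM0.le
      _ ≤ D * (K2 * a) * Mo d t a x (t * d) := mul_le_mul_of_nonneg_right h6 hM0.le
  have h1 := greedy (d := d) (x := x) (L := t * d + 1) (c := off t a) (Mo d t a x) (2 ^ d)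
    (K2 * a) D hDz (by positivity) (t * d) h0 hpos hratio
    (fun l hl => W_Mo ht hl) (t * d) (le_refl _) (R + r * (x : ℤ) ^ d) (by positivity) hbig hr2
  -- remove the multiple of `x ^ d`
  have h2 : W d x (t * d + 1) (off t a) ((x : ℤ) ^ d) 1 := by
    have h3 := W_single (d := d) (x := x) (c := off t a) (L := t * d + 1) (l := 0) (by omega)
    have h4 : off t a 0 = 0 := by simp [off]
    rw [h4, Nat.add_zero] at h3
    exact h3
  have h3 := h1.sub (h2.smul r D (by rw [abs_of_nonneg hr0]; exact hr1.le))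
  have h4 : R + r * (x : ℤ) ^ d - r * (x : ℤ) ^ d = R := by ring
  rw [h4] at h3
  apply h3.mono
  push_cast
  have h5 : (D : ℤ) * 1 ≤ D * a := mul_le_mul_of_nonneg_left ha' hDz.le
  calc ((t * d : ℕ) + 1 : ℤ) * (D * (K2 * a) * 2 ^ d) + D * 1
      ≤ ((t * d : ℕ) + 1 : ℤ) * (D * (K2 * a) * 2 ^ d) + D * a := by linarith
    _ = (((t : ℤ) * d + 1) * (D * K2) * 2 ^ d + D) * a := by push_cast; ring

end Pool.Agent.H88.War
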